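import Pool.Agent.Helper25.LS.Defs

/-! # LS / QB (MP_03bcbb_an): Bessel inequality for the lifted functionals -/

set_option autoImplicit false

open Filter Topology Module
open _root_.Pool.Agent.Helper25.LS

noncomputable section

namespace Pool.Agent.Helper58.LS

theorem qb (h1 : S_OP) : S_QB := by
  intro X _ _ U Y _ _ D H _ _ Φ L C C' hC hCC hΦ m u hu
  set A : ∀ j, X j →L[ℂ] EuclideanSpace ℂ (Fin m) := fun j =>
    ((EuclideanSpace.equiv (Fin m) ℂ).symm : (Fin m → ℂ) →L[ℂ] EuclideanSpace ℂ (Fin m)) ∘L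
      ContinuousLinearMap.pi fun k => L.τ (u k) j with hA
  have hAn : ∀ j (x : X j), ‖A j x‖ ^ 2 = ∑ k, ‖L.τ (u k) j x‖ ^ 2 := by
    intro j x
    rw [EuclideanSpace.norm_sq_eq]
    rfl
  have hlim : ∀ x : (∀ j, X j), (∀ j, ‖x j‖ ≤ 1) → ∀ δ : ℝ, 0 < δ →
      ∀ᶠ j in (U : Filter ℕ), ‖A j (x j)‖ ≤ C + δ := by
    intro x hx δ hδ
    have hmem : Memℓp x ⊤ := by
      apply memℓp_infty
      exact ⟨1, by rintro _ ⟨j, rfl⟩; exact hx j⟩
    set z : lp X ⊤ := ⟨x, hmem⟩ with hz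
    have hzj : ∀ j, z j = x j := fun j => rfl
    have hπ : ‖D.π z‖ ≤ 1 := by
      apply le_of_tendsto (D.lim z)
      exact Eventually.of_forall fun j => by rw [hzj]; exact hx j
    have ht : Tendsto (fun j => ∑ k, ‖L.τ (u k) j (x j)‖ ^ 2) (U : Filter ℕ)
        (𝓝 (∑ k, ‖inner ℂ (u k) (Φ (D.π z))‖ ^ 2)) := by
      apply tendsto_finsetSum
      intro k _
      have h2 := L.hτ (u k) z
      simpa [hzj] using (h2.norm.pow 2)
    have hb : ∑ k, ‖inner ℂ (u k) (Φ (D.π z))‖ ^ 2 ≤ C ^ 2 := by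
      have h3 := hu.sum_inner_products_le (x := Φ (D.π z)) (s := Finset.univ)
      have h4 : ‖Φ (D.π z)‖ ≤ C := by
        refine (hΦ _).trans ?_
        calc C * ‖D.π z‖ ≤ C * 1 := by gcongr
          _ = C := mul_one C
      refine h3.trans ?_
      gcongr
    have hlt : ∑ k, ‖inner ℂ (u k) (Φ (D.π z))‖ ^ 2 < (C + δ) ^ 2 := by
      refine lt_of_le_of_lt hb ?_
      nlinarith
    filter_upwards [ht.eventually_lt_const hlt] with j hj
    apply le_of_sq_le_sq _ (by positivity)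
    rw [hAn]
    exact hj.le
  have h5 := h1 X (fun _ => EuclideanSpace ℂ (Fin m)) U A C C' hC hCC hlim
  filter_upwards [h5] with j hj x
  rw [← hAn, ← mul_pow]
  have h6 : ‖A j x‖ ≤ C' * ‖x‖ := (A j).le_of_opNorm_le hj x
  gcongr

end Pool.Agent.Helper58.LS
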